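import Pool.Agent.H94st.Defs

/-!
Subsets of boxes of `ℤ[√2]` with rational cross-ratios are small.
-/

namespace Pool.Agent.H94st

open Finset

/-- the number `a + b √2` -/
noncomputable def phi (z : ℤ × ℤ) : ℝ := (z.1 : ℝ) + (z.2 : ℝ) * √2

lemma sq2 : √2 * √2 = (2 : ℝ) := Real.mul_self_sqrt (by norm_num)

/-- the rational numbers `p`, `q` with `p = q √2` -/
lemma rat_eq {p q : ℚ} (h : (p : ℝ) = (q : ℝ) * √2) : q = 0 := by
  by_contra hq
  have hq' : (q : ℝ) ≠ 0 := by exact_mod_cast hq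
  apply irrational_sqrt_two
  refine ⟨p / q, ?_⟩
  push_cast
  rw [h]
  field_simp

lemma phi_inj : Function.Injective phi := by
  intro z w h
  unfold phi at h
  have h1 : (((w.1 - z.1 : ℤ) : ℚ) : ℝ) = (((z.2 - w.2 : ℤ) : ℚ) : ℝ) * √2 := by
    push_cast
    linear_combination -h
  have h2 := rat_eq h1
  have h3 : z.2 = w.2 := by
    have : (z.2 - w.2 : ℤ) = 0 := by exact_mod_cast h2
    omega
  have h4 : z.1 = w.1 := by
    rw [h3] at h
    have : (z.1 : ℝ) = (w.1 : ℝ) := by linarith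
    exact_mod_cast this
  exact Prod.ext h4 h3

/-- cross-ratio identity for a fractional linear map -/
lemma cross {p q r s : ℝ} {y1 y2 y3 y : ℝ} (h1 : r + s * y1 ≠ 0) (h2 : r + s * y2 ≠ 0)
    (h3 : r + s * y3 ≠ 0) (h : r + s * y ≠ 0) :
    ((p + q * y1) / (r + s * y1) - (p + q * y3) / (r + s * y3)) *
      ((p + q * y2) / (r + s * y2) - (p + q * y) / (r + s * y)) * ((y2 - y3) * (y1 - y)) =
    ((p + q * y2) / (r + s * y2) - (p + q * y3) / (r + s * y3)) *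
      ((p + q * y1) / (r + s * y1) - (p + q * y) / (r + s * y)) * ((y1 - y3) * (y2 - y)) := by
  have key : ∀ a b : ℝ, r + s * a ≠ 0 → r + s * b ≠ 0 →
      (p + q * a) / (r + s * a) - (p + q * b) / (r + s * b) =
        (q * r - p * s) * (a - b) * ((r + s * a)⁻¹ * (r + s * b)⁻¹) := by
    intro a b ha hb
    rw [div_sub_div _ _ ha hb, div_eq_mul_inv, mul_inv]
    ring
  rw [key y1 y3 h1 h3, key y2 y h2 h, key y2 y3 h2 h3, key y1 y h1 h]
  generalize (r + s * y1)⁻¹ = i1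
  generalize (r + s * y2)⁻¹ = i2
  generalize (r + s * y3)⁻¹ = i3
  generalize (r + s * y)⁻¹ = i4
  ring

/-- a nondegenerate fractional linear map is injective -/
lemma frac_inj {p q r s : ℝ} (hD : p * s - q * r ≠ 0) {y1 y2 : ℝ} (h1 : r + s * y1 ≠ 0)
    (h2 : r + s * y2 ≠ 0) (h : (p + q * y1) / (r + s * y1) = (p + q * y2) / (r + s * y2)) :
    y1 = y2 := by
  rw [div_eq_div_iff h1 h2] at h
  have : (p * s - q * r) * (y1 - y2) = 0 := by linear_combination (-1 : ℝ) * h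
  rcases mul_eq_zero.mp this with h | h
  · exact absurd h hD
  · linarith

/-- the coefficient of `√2` -/
def F1 (z1 z2 z3 z : ℤ × ℤ) : ℤ :=
  ((z1.1 - z3.1) * (z2.1 - z3.1) - 2 * (z1.2 - z3.2) * (z2.2 - z3.2)) *
    ((z2.2 - z.2) * (z1.1 - z.1) - (z2.1 - z.1) * (z1.2 - z.2)) +
  ((z1.2 - z3.2) * (z2.1 - z3.1) - (z1.1 - z3.1) * (z2.2 - z3.2)) *
    ((z2.1 - z.1) * (z1.1 - z.1) - 2 * (z2.2 - z.2) * (z1.2 - z.2))

lemma F1_zero {p q r s : ℝ} (hD : p * s - q * r ≠ 0) {z1 z2 z3 z : ℤ × ℤ} {g : ℤ × ℤ → ℚ}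
    (Y : Finset (ℤ × ℤ)) (hd : ∀ w ∈ Y, r + s * phi w ≠ 0)
    (hg : ∀ w ∈ Y, (p + q * phi w) / (r + s * phi w) = (g w : ℝ))
    (m1 : z1 ∈ Y) (m2 : z2 ∈ Y) (m3 : z3 ∈ Y) (m : z ∈ Y) (h23 : z2 ≠ z3) :
    F1 z1 z2 z3 z = 0 := by
  by_cases hz : z = z1
  · subst hz
    unfold F1
    ring
  have hc := cross (p := p) (q := q) (hd z1 m1) (hd z2 m2) (hd z3 m3) (hd z m)
  rw [hg z1 m1, hg z2 m2, hg z3 m3, hg z m] at hc
  have n23 : g z2 ≠ g z3 := by
    intro h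
    apply h23
    apply phi_inj
    apply frac_inj hD (hd z2 m2) (hd z3 m3)
    rw [hg z2 m2, hg z3 m3, h]
  have n1 : g z1 ≠ g z := by
    intro h
    apply hz
    apply phi_inj
    apply frac_inj hD (hd z m) (hd z1 m1)
    rw [hg z1 m1, hg z m, h]
  have key : (((g z1 - g z3) * (g z2 - g z) *
      (((z2.1 - z3.1 : ℤ) : ℚ) ^ 2 - 2 * ((z2.2 - z3.2 : ℤ) : ℚ) ^ 2) *
      (((z1.1 - z.1 : ℤ) : ℚ) ^ 2 - 2 * ((z1.2 - z.2 : ℤ) : ℚ) ^ 2) -
      (g z2 - g z3) * (g z1 - g z) *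
      ((((z1.1 - z3.1) * (z2.1 - z3.1) - 2 * (z1.2 - z3.2) * (z2.2 - z3.2)) *
      ((z2.1 - z.1) * (z1.1 - z.1) - 2 * (z2.2 - z.2) * (z1.2 - z.2)) +
      2 * ((z1.2 - z3.2) * (z2.1 - z3.1) - (z1.1 - z3.1) * (z2.2 - z3.2)) *
      ((z2.2 - z.2) * (z1.1 - z.1) - (z2.1 - z.1) * (z1.2 - z.2)) : ℤ) : ℚ) : ℚ) : ℝ) =
      (((g z2 - g z3) * (g z1 - g z) * (F1 z1 z2 z3 z : ℚ) : ℚ) : ℝ) * √2 := by
    unfold F1
    unfold phi at hc
    have e := sq2
    push_cast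
    have hc2 := congrArg (fun t => t * (((z2.1 : ℝ) - z3.1 - (z2.2 - z3.2) * √2) *
      ((z1.1 : ℝ) - z.1 - (z1.2 - z.2) * √2))) hc
    beta_reduce at hc2
    have e1 : ((z2.1 : ℝ) + z2.2 * √2 - (z3.1 + z3.2 * √2)) * ((z2.1 : ℝ) - z3.1 - (z2.2 - z3.2) * √2) =
        ((z2.1 : ℝ) - z3.1) ^ 2 - 2 * ((z2.2 : ℝ) - z3.2) ^ 2 := by
      linear_combination (-((z2.2 : ℝ) - z3.2) ^ 2) * e
    have e2 : ((z1.1 : ℝ) + z1.2 * √2 - (z.1 + z.2 * √2)) * ((z1.1 : ℝ) - z.1 - (z1.2 - z.2) * √2) =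
        ((z1.1 : ℝ) - z.1) ^ 2 - 2 * ((z1.2 : ℝ) - z.2) ^ 2 := by
      linear_combination (-((z1.2 : ℝ) - z.2) ^ 2) * e
    have e3 : ((z1.1 : ℝ) + z1.2 * √2 - (z3.1 + z3.2 * √2)) * ((z2.1 : ℝ) - z3.1 - (z2.2 - z3.2) * √2) =
        (((z1.1 : ℝ) - z3.1) * (z2.1 - z3.1) - 2 * (z1.2 - z3.2) * (z2.2 - z3.2)) +
        ((z1.2 - z3.2) * (z2.1 - z3.1) - (z1.1 - z3.1) * (z2.2 - z3.2)) * √2 := by
      linear_combination (-((z1.2 : ℝ) - z3.2) * (z2.2 - z3.2)) * e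
    have e4 : ((z2.1 : ℝ) + z2.2 * √2 - (z.1 + z.2 * √2)) * ((z1.1 : ℝ) - z.1 - (z1.2 - z.2) * √2) =
        (((z2.1 : ℝ) - z.1) * (z1.1 - z.1) - 2 * (z2.2 - z.2) * (z1.2 - z.2)) +
        ((z2.2 - z.2) * (z1.1 - z.1) - (z2.1 - z.1) * (z1.2 - z.2)) * √2 := by
      linear_combination (-((z2.2 : ℝ) - z.2) * (z1.2 - z.2)) * e
    have l : ((g z1 : ℝ) - g z3) * (g z2 - g z) * ((((z2.1 : ℝ) - z3.1) ^ 2 - 2 * ((z2.2 : ℝ) - z3.2) ^ 2) *
        (((z1.1 : ℝ) - z.1) ^ 2 - 2 * ((z1.2 : ℝ) - z.2) ^ 2)) =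
        ((g z2 : ℝ) - g z3) * (g z1 - g z) *
        (((((z1.1 : ℝ) - z3.1) * (z2.1 - z3.1) - 2 * (z1.2 - z3.2) * (z2.2 - z3.2)) +
        ((z1.2 - z3.2) * (z2.1 - z3.1) - (z1.1 - z3.1) * (z2.2 - z3.2)) * √2) *
        ((((z2.1 : ℝ) - z.1) * (z1.1 - z.1) - 2 * (z2.2 - z.2) * (z1.2 - z.2)) +
        ((z2.2 - z.2) * (z1.1 - z.1) - (z2.1 - z.1) * (z1.2 - z.2)) * √2)) := by
      rw [← e1, ← e2, ← e3, ← e4]
      linear_combination hc2
    linear_combination l + ((g z2 : ℝ) - g z3) * (g z1 - g z) *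
      ((z1.2 - z3.2) * (z2.1 - z3.1) - (z1.1 - z3.1) * (z2.2 - z3.2)) *
      ((z2.2 - z.2) * (z1.1 - z.1) - (z2.1 - z.1) * (z1.2 - z.2)) * e
  have h0 := rat_eq key
  have h1 : (g z2 - g z3) * (g z1 - g z) ≠ 0 := mul_ne_zero (sub_ne_zero.mpr n23) (sub_ne_zero.mpr n1)
  rcases mul_eq_zero.mp h0 with h | h
  · exact absurd h h1
  · exact_mod_cast h

/-- three distinct roots kill a quadratic -/
lemma quad3 {A B E x y z : ℤ} (hx : A * x ^ 2 + B * x + E = 0) (hy : A * y ^ 2 + B * y + E = 0)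
    (hz : A * z ^ 2 + B * z + E = 0) (hxy : x ≠ y) (hxz : x ≠ z) (hyz : y ≠ z) :
    A = 0 ∧ B = 0 := by
  have h1 : (x - y) * (A * (x + y) + B) = 0 := by linear_combination hx - hy
  have h2 : (x - z) * (A * (x + z) + B) = 0 := by linear_combination hx - hz
  have h1' : A * (x + y) + B = 0 := by
    rcases mul_eq_zero.mp h1 with h | h
    · exact absurd (sub_eq_zero.mp h) hxy
    · exact h
  have h2' : A * (x + z) + B = 0 := by
    rcases mul_eq_zero.mp h2 with h | h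
    · exact absurd (sub_eq_zero.mp h) hxz
    · exact h
  have h3 : (y - z) * A = 0 := by linear_combination h1' - h2'
  have hA : A = 0 := by
    rcases mul_eq_zero.mp h3 with h | h
    · exact absurd (sub_eq_zero.mp h) hyz
    · exact h
  refine ⟨hA, ?_⟩
  rw [hA] at h1'
  linarith

/-- zeros of a polynomial `A (a² - 2 b²) + B a + C b + E` in a box -/
lemma count_zeros {A B C E : ℤ} (hne : ¬ (A = 0 ∧ B = 0 ∧ C = 0)) {M : ℕ} {o1 o2 : ℤ}
    {Y : Finset (ℤ × ℤ)} (hY : Y ⊆ Finset.Ico o1 (o1 + M) ×ˢ Finset.Ico o2 (o2 + M))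
    (h : ∀ w ∈ Y, A * (w.1 ^ 2 - 2 * w.2 ^ 2) + B * w.1 + C * w.2 + E = 0) :
    Y.card ≤ 2 * M := by
  classical
  by_cases hAB : A = 0 ∧ B = 0
  · obtain ⟨hA, hB⟩ := hAB
    have hC : C ≠ 0 := fun hC => hne ⟨hA, hB, hC⟩
    have h1 : Y.card ≤ 2 * (Y.image Prod.fst).card := by
      apply Finset.card_le_mul_card_image
      intro a _
      refine le_trans (Finset.card_le_one.mpr ?_) (by norm_num)
      intro u hu v hv
      rw [Finset.mem_filter] at hu hv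
      have e1 := h u hu.1
      have e2 := h v hv.1
      rw [hA, hB] at e1 e2
      have e3 : C * (u.2 - v.2) = 0 := by linear_combination e1 - e2
      have e4 : u.2 = v.2 := by
        rcases mul_eq_zero.mp e3 with h | h
        · exact absurd h hC
        · omega
      exact Prod.ext (by rw [hu.2, hv.2]) e4
    have h2 : (Y.image Prod.fst).card ≤ M := by
      calc (Y.image Prod.fst).card ≤ (Finset.Ico o1 (o1 + M)).card := by
            apply Finset.card_le_card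
            intro a ha
            obtain ⟨w, hw, rfl⟩ := Finset.mem_image.mp ha
            exact (Finset.mem_product.mp (hY hw)).1
        _ = M := by simp
    omega
  · have h1 : Y.card ≤ 2 * (Y.image Prod.snd).card := by
      apply Finset.card_le_mul_card_image
      intro b _
      by_contra hcon
      push Not at hcon
      rw [Finset.two_lt_card] at hcon
      obtain ⟨u, hu, v, hv, w, hw, huv, huw, hvw⟩ := hcon
      rw [Finset.mem_filter] at hu hv hw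
      have e1 := h u hu.1
      have e2 := h v hv.1
      have e3 := h w hw.1
      rw [hu.2] at e1
      rw [hv.2] at e2
      rw [hw.2] at e3
      apply hAB
      apply quad3 (A := A) (B := B) (E := -2 * A * b ^ 2 + C * b + E) (x := u.1) (y := v.1) (z := w.1)
      · linear_combination e1
      · linear_combination e2
      · linear_combination e3
      · intro he; exact huv (Prod.ext he (by rw [hu.2, hv.2]))
      · intro he; exact huw (Prod.ext he (by rw [hu.2, hw.2]))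
      · intro he; exact hvw (Prod.ext he (by rw [hv.2, hw.2]))
    have h2 : (Y.image Prod.snd).card ≤ M := by
      calc (Y.image Prod.snd).card ≤ (Finset.Ico o2 (o2 + M)).card := by
            apply Finset.card_le_card
            intro a ha
            obtain ⟨w, hw, rfl⟩ := Finset.mem_image.mp ha
            exact (Finset.mem_product.mp (hY hw)).2
        _ = M := by simp
    omega

lemma norm_ne {a b : ℤ} (h : a ^ 2 = 2 * b ^ 2) : a = 0 ∧ b = 0 := by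
  by_cases hb : b = 0
  · subst hb
    simp at h
    exact ⟨h, rfl⟩
  exfalso
  apply irrational_sqrt_two
  refine ⟨|(a : ℚ) / b|, ?_⟩
  have hb' : (b : ℝ) ≠ 0 := by exact_mod_cast hb
  have h2 : ((a : ℝ) / b) ^ 2 = 2 := by
    rw [div_pow, div_eq_iff (pow_ne_zero 2 hb')]
    exact_mod_cast h
  push_cast
  rw [← Real.sqrt_sq_eq_abs, h2]

/-- points of a box of `ℤ[√2]` with rational images under a fractional linear map -/
lemma box_bound {p q r s : ℝ} (hD : p * s - q * r ≠ 0) {g : ℤ × ℤ → ℚ} {M : ℕ} (hM : 1 ≤ M)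
    {o1 o2 : ℤ} {Y : Finset (ℤ × ℤ)}
    (hY : Y ⊆ Finset.Ico o1 (o1 + M) ×ˢ Finset.Ico o2 (o2 + M))
    (hd : ∀ w ∈ Y, r + s * phi w ≠ 0)
    (hg : ∀ w ∈ Y, (p + q * phi w) / (r + s * phi w) = (g w : ℝ)) : Y.card ≤ 2 * M := by
  by_contra hcon
  push Not at hcon
  have h3 : 2 < Y.card := by omega
  rw [Finset.two_lt_card] at h3
  obtain ⟨z1, m1, z2, m2, z3, m3, h12, h13, h23⟩ := h3
  have hz : ∀ z ∈ Y, F1 z1 z2 z3 z = 0 := fun z m => F1_zero hD Y hd hg m1 m2 m3 m h23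
  set k0 : ℤ := (z1.1 - z3.1) * (z2.1 - z3.1) - 2 * (z1.2 - z3.2) * (z2.2 - z3.2) with hk0
  set k1 : ℤ := (z1.2 - z3.2) * (z2.1 - z3.1) - (z1.1 - z3.1) * (z2.2 - z3.2) with hk1
  have := count_zeros (A := k1) (B := k0 * (z1.2 - z2.2) - k1 * (z1.1 + z2.1))
    (C := k0 * (z2.1 - z1.1) + 2 * k1 * (z1.2 + z2.2))
    (E := k0 * (z2.2 * z1.1 - z2.1 * z1.2) + k1 * (z2.1 * z1.1 - 2 * z2.2 * z1.2)) ?_ hY ?_
  · omega
  · rintro ⟨h1, h2, h3⟩
    have hN : k0 ^ 2 - 2 * k1 ^ 2 = ((z1.1 - z3.1) ^ 2 - 2 * (z1.2 - z3.2) ^ 2) *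
        ((z2.1 - z3.1) ^ 2 - 2 * (z2.2 - z3.2) ^ 2) := by
      rw [hk0, hk1]; ring
    rw [h1] at h2 h3 hN
    have hk0' : k0 ≠ 0 := by
      intro h
      rw [h] at hN
      have hN' : ((z1.1 - z3.1) ^ 2 - 2 * (z1.2 - z3.2) ^ 2) *
        ((z2.1 - z3.1) ^ 2 - 2 * (z2.2 - z3.2) ^ 2) = 0 := by rw [← hN]; ring
      rcases mul_eq_zero.mp hN' with h | h
      · obtain ⟨h4, h5⟩ := norm_ne (sub_eq_zero.mp h)
        exact h13 (Prod.ext (sub_eq_zero.mp h4) (sub_eq_zero.mp h5))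
      · obtain ⟨h4, h5⟩ := norm_ne (sub_eq_zero.mp h)
        exact h23 (Prod.ext (sub_eq_zero.mp h4) (sub_eq_zero.mp h5))
    have h4 : k0 * (z1.2 - z2.2) = 0 := by linear_combination h2
    have h5 : k0 * (z2.1 - z1.1) = 0 := by linear_combination h3
    apply h12
    rcases mul_eq_zero.mp h4 with h | h
    · exact absurd h hk0'
    rcases mul_eq_zero.mp h5 with h' | h'
    · exact absurd h' hk0'
    exact Prod.ext (sub_eq_zero.mp h').symm (sub_eq_zero.mp h)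
  · intro w hw
    have := hz w hw
    unfold F1 at this
    rw [← hk0, ← hk1] at this
    linear_combination this

end Pool.Agent.H94st
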