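import Mathlib

/-!
Points and lines of the real plane, incidences, projective transformations, lattice sections and
point-line duality.
-/

namespace Pool.Agent.H94st

/-- `l` is a straight line of the real plane -/
def IsLine (l : Set (ℝ × ℝ)) : Prop :=
  ∃ a b d : ℝ, (a ≠ 0 ∨ b ≠ 0) ∧ l = {p | a * p.1 + b * p.2 = d}

open scoped Classical in
/-- the number of pairs (point of `P`, line of `L`) with the point on the line -/
noncomputable def incidences (P : Finset (ℝ × ℝ)) (L : Finset (Set (ℝ × ℝ))) : ℕ :=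
  ((P ×ˢ L).filter (fun z => z.1 ∈ z.2)).card

/-- homogeneous coordinates of a point -/
def homog (p : ℝ × ℝ) : Fin 3 → ℝ := ![p.1, p.2, 1]

/-- some projective transformation, given by an invertible matrix, sends no point of `X` to the
line at infinity and sends all of `X` into `Y` -/
def ProjInto (X : Finset (ℝ × ℝ)) (Y : Set (ℝ × ℝ)) : Prop :=
  ∃ A : Matrix (Fin 3) (Fin 3) ℝ, A.det ≠ 0 ∧ ∀ p ∈ X, A.mulVec (homog p) 2 ≠ 0 ∧
    (A.mulVec (homog p) 0 / A.mulVec (homog p) 2,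
      A.mulVec (homog p) 1 / A.mulVec (homog p) 2) ∈ Y

/-- the grid of the points `(i, j)` with `1 ≤ i ≤ a` and `1 ≤ j ≤ b` -/
def latticeSection (a b : ℕ) : Set (ℝ × ℝ) :=
  {p | ∃ i j : ℕ, 1 ≤ i ∧ i ≤ a ∧ 1 ≤ j ∧ j ≤ b ∧ p = ((i : ℝ), (j : ℝ))}

/-- the non-vertical line `y = s x - t`, whose dual point is `(s, t)` -/
def dualLine (q : ℝ × ℝ) : Set (ℝ × ℝ) := {p | p.2 = q.1 * p.1 - q.2}

end Pool.Agent.H94st
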