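import Pool.Agent.H94st.Core

/-!
Boxes of `ℤ[√2]`: no proportional part is projectively inside a lattice section.
-/

namespace Pool.Agent.H94st

open Finset

open scoped Classical in
/-- the numbers `a + b √2` with `o ≤ a, b < o + M` -/
noncomputable def box (o : ℤ) (M : ℕ) : Finset ℝ :=
  (Finset.Ico o (o + M) ×ˢ Finset.Ico o (o + M)).image phi

lemma mem_box {o : ℤ} {M : ℕ} {y : ℝ} : y ∈ box o M ↔
    ∃ a b : ℤ, (o ≤ a ∧ a < o + M) ∧ (o ≤ b ∧ b < o + M) ∧ phi (a, b) = y := by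
  classical
  unfold box
  rw [Finset.mem_image]
  constructor
  · rintro ⟨⟨a, b⟩, h, rfl⟩
    rw [Finset.mem_product, Finset.mem_Ico, Finset.mem_Ico] at h
    exact ⟨a, b, h.1, h.2, rfl⟩
  · rintro ⟨a, b, h1, h2, rfl⟩
    exact ⟨(a, b), by rw [Finset.mem_product, Finset.mem_Ico, Finset.mem_Ico]; exact ⟨h1, h2⟩, rfl⟩

lemma card_box (o : ℤ) (M : ℕ) : (box o M).card = M ^ 2 := by
  classical
  unfold box
  rw [Finset.card_image_of_injective _ phi_inj, Finset.card_product, Int.card_Ico]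
  simp [sq]

lemma mulVec_eq (A : Matrix (Fin 3) (Fin 3) ℝ) (u y : ℝ) (k : Fin 3) :
    A.mulVec (homog (u, y)) k = (A k 0 * u + A k 2) + A k 1 * y := by
  unfold homog
  simp only [Matrix.mulVec, dotProduct, Fin.sum_univ_three, Matrix.cons_val_zero,
    Matrix.cons_val_one, Matrix.cons_val]
  ring

/-- a dense subset of a product with a box has no projective image in a lattice section -/
lemma no_proj {U : Finset ℝ} (hU : U.Nonempty) {M : ℕ} (hM : 1 ≤ M) {o : ℤ} {ε : ℝ}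
    (hc : 2 < ε * M) {X : Finset (ℝ × ℝ)} (hX : X ⊆ U ×ˢ box o M)
    (hcard : ε * ((U.card * M ^ 2 : ℕ) : ℝ) ≤ X.card) (a b : ℕ) :
    ¬ ProjInto X (latticeSection a b) := by
  classical
  rintro ⟨A, hA, h⟩
  have hfib : ∀ u ∈ X.image Prod.fst, (X.filter (fun z => z.1 = u)).card ≤ 2 * M := by
    intro u _
    set Y : Finset (ℤ × ℤ) := (Finset.Ico o (o + M) ×ˢ Finset.Ico o (o + M)).filter
      (fun z => (u, phi z) ∈ X) with hY
    have h1 : (X.filter (fun z => z.1 = u)).card ≤ Y.card := by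
      have hsub : X.filter (fun z => z.1 = u) ⊆ Y.image (fun z => (u, phi z)) := by
        intro w hw
        rw [Finset.mem_filter] at hw
        have hw2 := (Finset.mem_product.mp (hX hw.1)).2
        unfold box at hw2
        obtain ⟨z, hz, hz2⟩ := Finset.mem_image.mp hw2
        rw [Finset.mem_image]
        have e : (u, phi z) = w := Prod.ext hw.2.symm hz2
        exact ⟨z, by rw [hY, Finset.mem_filter]; exact ⟨hz, by rw [e]; exact hw.1⟩, e⟩
      exact le_trans (Finset.card_le_card hsub) Finset.card_image_le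
    refine le_trans h1 ?_
    have hsubY : Y ⊆ Finset.Ico o (o + M) ×ˢ Finset.Ico o (o + M) := Finset.filter_subset _ _
    have hYX : ∀ z ∈ Y, (u, phi z) ∈ X := fun z hz => (Finset.mem_filter.mp hz).2
    have hd : ∀ z ∈ Y, (A 2 0 * u + A 2 2) + A 2 1 * phi z ≠ 0 := by
      intro z hz
      have := (h _ (hYX z hz)).1
      rwa [mulVec_eq] at this
    have g0 : ∀ z ∈ Y, ∃ g : ℚ, ((A 0 0 * u + A 0 2) + A 0 1 * phi z) /
        ((A 2 0 * u + A 2 2) + A 2 1 * phi z) = (g : ℝ) := by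
      intro z hz
      obtain ⟨i, j, -, -, -, -, e⟩ := (h _ (hYX z hz)).2
      rw [mulVec_eq, mulVec_eq, mulVec_eq] at e
      exact ⟨(i : ℚ), by push_cast; exact congrArg Prod.fst e⟩
    have g1 : ∀ z ∈ Y, ∃ g : ℚ, ((A 1 0 * u + A 1 2) + A 1 1 * phi z) /
        ((A 2 0 * u + A 2 2) + A 2 1 * phi z) = (g : ℝ) := by
      intro z hz
      obtain ⟨i, j, -, -, -, -, e⟩ := (h _ (hYX z hz)).2
      rw [mulVec_eq, mulVec_eq, mulVec_eq] at e
      exact ⟨(j : ℚ), by push_cast; exact congrArg Prod.snd e⟩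
    choose! f0 hf0 using g0
    choose! f1 hf1 using g1
    by_cases m0 : (A 0 0 * u + A 0 2) * A 2 1 - A 0 1 * (A 2 0 * u + A 2 2) = 0
    · by_cases m1 : (A 1 0 * u + A 1 2) * A 2 1 - A 1 1 * (A 2 0 * u + A 2 2) = 0
      · rcases Finset.eq_empty_or_nonempty Y with hE | ⟨z, hz⟩
        · rw [hE]; simp
        · exfalso
          have hz' := hd z hz
          have m2 : ((A 2 0 * u + A 2 2) + A 2 1 * phi z) *
              ((A 0 0 * u + A 0 2) * A 1 1 - (A 1 0 * u + A 1 2) * A 0 1) = 0 := by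
            linear_combination (phi z * A 1 1 + (A 1 0 * u + A 1 2)) * m0 -
              (phi z * A 0 1 + (A 0 0 * u + A 0 2)) * m1
          rcases mul_eq_zero.mp m2 with h' | h'
          · exact hz' h'
          · apply hA
            rw [Matrix.det_fin_three]
            linear_combination (-A 0 0) * m1 + A 1 0 * m0 - A 2 0 * h'
      · exact box_bound m1 hM hsubY hd hf1
    · exact box_bound m0 hM hsubY hd hf0
  have h1 := Finset.card_le_mul_card_image X (2 * M) hfib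
  have h2 : (X.image Prod.fst).card ≤ U.card := by
    apply Finset.card_le_card
    intro u hu
    obtain ⟨w, hw, rfl⟩ := Finset.mem_image.mp hu
    exact (Finset.mem_product.mp (hX hw)).1
  have h3 : X.card ≤ 2 * M * U.card := le_trans h1 (Nat.mul_le_mul_left _ h2)
  have h4 : (X.card : ℝ) ≤ 2 * M * U.card := by exact_mod_cast h3
  have hUc : (0 : ℝ) < U.card := by exact_mod_cast hU.card_pos
  have hMc : (0 : ℝ) < M := by exact_mod_cast hM
  push_cast at hcard
  have h5 : 0 < (ε * M - 2) * (M * U.card) := mul_pos (by linarith) (mul_pos hMc hUc)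
  nlinarith

lemma dualLine_inj : Function.Injective dualLine := by
  intro q r h
  have h0 : ((0 : ℝ), -q.2) ∈ dualLine q := by unfold dualLine; simp
  have h1 : ((1 : ℝ), q.1 - q.2) ∈ dualLine q := by unfold dualLine; simp
  rw [h] at h0 h1
  unfold dualLine at h0 h1
  simp only [Set.mem_ofPred_eq, mul_zero, mul_one] at h0 h1
  exact Prod.ext (by linarith) (by linarith)

lemma isLine_dualLine (q : ℝ × ℝ) : IsLine (dualLine q) := by
  refine ⟨q.1, -1, q.2, Or.inr (by norm_num), ?_⟩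
  unfold dualLine
  ext p
  simp only [Set.mem_ofPred_eq]
  constructor
  · intro h; rw [h]; ring
  · intro h; linarith

lemma phi_mul_sub (s1 s2 a b t1 t2 : ℤ) : phi (s1, s2) * phi (a, b) - phi (t1, t2) =
    phi (s1 * a + 2 * (s2 * b) - t1, s1 * b + s2 * a - t2) := by
  unfold phi
  push_cast
  linear_combination ((s2 : ℝ) * b) * sq2

/-- the value of a line of the family at a point of the small box lies in the large box -/
lemma value_mem {S N : ℕ} {s x t : ℝ} (hs : s ∈ box 0 S) (hx : x ∈ box 0 N)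
    (ht : t ∈ box 0 (S * N)) : s * x - t ∈ box (-(S * N : ℕ)) (4 * (S * N)) := by
  obtain ⟨s1, s2, h1, h2, rfl⟩ := mem_box.mp hs
  obtain ⟨a, b, h3, h4, rfl⟩ := mem_box.mp hx
  obtain ⟨t1, t2, h5, h6, rfl⟩ := mem_box.mp ht
  rw [phi_mul_sub]
  rw [mem_box]
  have key : ∀ u v : ℤ, 0 ≤ u ∧ u < 0 + S → 0 ≤ v ∧ v < 0 + N → 0 ≤ u * v ∧ u * v < S * N := by
    intro u v hu hv
    refine ⟨mul_nonneg hu.1 hv.1, ?_⟩
    have : u * v ≤ u * N := mul_le_mul_of_nonneg_left (by omega) hu.1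
    have hN : (0 : ℤ) < N := by omega
    have : u * N < S * N := mul_lt_mul_of_pos_right (by omega) hN
    linarith
  obtain ⟨k1, k1'⟩ := key s1 a h1 h3
  obtain ⟨k2, k2'⟩ := key s2 b h2 h4
  obtain ⟨k3, k3'⟩ := key s1 b h1 h4
  obtain ⟨k4, k4'⟩ := key s2 a h2 h3
  push_cast at h5 h6 ⊢
  refine ⟨_, _, ?_, ?_, rfl⟩ <;> constructor <;> linarith [h5.1, h5.2, h6.1, h6.2]

lemma incid_bound {S N : ℕ} : N ^ 2 * (S ^ 2 * (S * N) ^ 2) ≤
    incidences (box 0 N ×ˢ box (-(S * N : ℕ)) (4 * (S * N)))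
      ((box 0 S ×ˢ box 0 (S * N)).image dualLine) := by
  classical
  unfold incidences
  have hc : (box 0 N ×ˢ (box 0 S ×ˢ box 0 (S * N))).card = N ^ 2 * (S ^ 2 * (S * N) ^ 2) := by
    rw [Finset.card_product, Finset.card_product, card_box, card_box, card_box]
  rw [← hc]
  apply Finset.card_le_card_of_injOn (fun w => ((w.1, w.2.1 * w.1 - w.2.2), dualLine w.2))
  · intro w hw
    rw [Finset.mem_coe, Finset.mem_product, Finset.mem_product] at hw
    rw [Finset.mem_coe, Finset.mem_filter, Finset.mem_product, Finset.mem_product]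
    refine ⟨⟨⟨hw.1, value_mem hw.2.1 hw.1 hw.2.2⟩, ?_⟩, ?_⟩
    · rw [Finset.mem_image]
      exact ⟨w.2, by rw [Finset.mem_product]; exact hw.2, rfl⟩
    · unfold dualLine
      simp
  · intro w _ v _ hwv
    simp only [Prod.mk.injEq] at hwv
    exact Prod.ext hwv.1.1 (dualLine_inj hwv.2)

lemma rpow_bound (S N : ℕ) :
    ((16 * S ^ 2 * N ^ 4 : ℕ) : ℝ) ^ (2 / 3 : ℝ) * ((S ^ 4 * N ^ 2 : ℕ) : ℝ) ^ (2 / 3 : ℝ) ≤
      8 * ((S ^ 4 * N ^ 4 : ℕ) : ℝ) := by
  rw [← Real.mul_rpow (by positivity) (by positivity)]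
  have e : ((16 * S ^ 2 * N ^ 4 : ℕ) : ℝ) * ((S ^ 4 * N ^ 2 : ℕ) : ℝ) = 16 * ((S : ℝ) * N) ^ 6 := by
    push_cast; ring
  rw [e]
  have h0 : (0 : ℝ) ≤ 16 * ((S : ℝ) * N) ^ 6 := by positivity
  rw [← pow_le_pow_iff_left₀ (Real.rpow_nonneg h0 _) (by positivity) (by norm_num : (3 : ℕ) ≠ 0)]
  rw [← Real.rpow_natCast, ← Real.rpow_mul h0]
  norm_num
  have h1 : (0 : ℝ) ≤ ((S : ℝ) * N) ^ 12 := by positivity
  calc (16 * ((S : ℝ) * N) ^ 6) ^ 2 = 256 * ((S : ℝ) * N) ^ 12 := by ring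
    _ ≤ 512 * ((S : ℝ) * N) ^ 12 := by linarith
    _ = (8 * ((S : ℝ) ^ 4 * N ^ 4)) ^ 3 := by ring

end Pool.Agent.H94st
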